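import Mathlib
import Pool.Agent.W609.CR.Prime
import Pool.Agent.Chud.PBZ

set_option autoImplicit false

/-!
# Irreducible curves of negative self-intersection are rigid
-/

namespace Pool.Agent.TH167.Neg

open MvPolynomial Pool.Agent.W609.CR Pool.Agent.Chud

theorem aff_ne {K : Type} [Field K] (a : Fin 2 → K) : aff a ≠ 0 := by
  intro h
  have := congrFun h 2
  simp [aff] at this

theorem neg_dim {K : Type} [Field K] {s : ℕ} (P : Fin s → Fin 2 → K) (hP : Function.Injective P)
    (w : Fin s → ℕ) (G : MvPolynomial (Fin 3) K) (e : ℕ) (hG : Irreducible G)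
    (hGe : G.IsHomogeneous e) (hord : ∀ j, Ord (aff (P j)) (w j) G)
    (hneg : e ^ 2 < ∑ j, w j ^ 2) :
    Module.finrank K ↥(VS (fun j => aff (P j)) w e) = 1 := by
  classical
  let p : Fin s → PP K 2 := fun j => Projectivization.mk K (aff (P j)) (aff_ne _)
  have hp : Function.Injective p := by
    intro i j hij
    have h1 := (Projectivization.mk_eq_mk_iff' K _ _ (aff_ne (P i)) (aff_ne (P j))).1 hij
    obtain ⟨c, hc⟩ := h1
    have h2 := congrFun hc 2
    have h3 : c = 1 := by simpa [aff] using h2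
    rw [h3, one_smul] at hc
    refine hP (funext fun l => ?_)
    fin_cases l
    · have := congrFun hc 0
      simpa [aff] using this.symm
    · have := congrFun hc 1
      simpa [aff] using this.symm
  let r : PP K 2 → ℕ := fun q => if h : ∃ j, p j = q then w h.choose else 0
  have hr : ∀ j, r (p j) = w j := by
    intro j
    have h : ∃ i, p i = p j := ⟨j, rfl⟩
    show (if h : ∃ i, p i = p j then w h.choose else 0) = w j
    rw [dif_pos h]
    exact congrArg w (hp h.choose_spec)
  have hvan : ∀ (f : MvPolynomial (Fin 3) K), f.IsHomogeneous e → ∀ j,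
      Van (aff (P j)) (w j) f → f ∈ mI (p j).rep ^ (w j) := by
    intro f hf j hj
    obtain ⟨c, hc⟩ := Projectivization.exists_smul_eq_mk_rep K (aff (P j)) (aff_ne _)
    have h1 := ((t_lin K).2 f e hf (c : K) c.ne_zero (aff (P j)) (w j)).2 hj
    have h2 : (c : K) • aff (P j) = (p j).rep := hc
    rw [h2] at h1
    exact h1
  have hGmem : G ∈ VS (fun j => aff (P j)) w e := by
    unfold VS
    rw [Submodule.mem_inf, Submodule.restrictScalars_mem, Ideal.mem_iInf,
      mem_homogeneousSubmodule]
    exact ⟨hGe, fun j => (hord j).1⟩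
  have hGne : (⟨G, hGmem⟩ : ↥(VS (fun j => aff (P j)) w e)) ≠ 0 :=
    fun h => hG.ne_zero (congrArg Subtype.val h)
  rw [finrank_eq_one_iff_of_nonzero' _ hGne]
  rintro ⟨F, hF⟩
  have hF' := hF
  unfold VS at hF'
  rw [Submodule.mem_inf, Submodule.restrictScalars_mem, Ideal.mem_iInf,
      mem_homogeneousSubmodule] at hF'
  by_cases hF0 : F = 0
  · exact ⟨0, Subtype.ext (by simp [hF0])⟩
  have hdvd : G ∣ F := by
    by_contra hnd
    have hrel : IsRelPrime G F := (Irreducible.isRelPrime_iff_not_dvd hG).2 hnd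
    have hb := bezout hGe hF'.1 hG.ne_zero hF0 hrel (Finset.univ.image p) r r (by
      intro q hq
      obtain ⟨j, _, rfl⟩ := Finset.mem_image.1 hq
      rw [hr]
      exact hvan G hGe j (hord j).1) (by
      intro q hq
      obtain ⟨j, _, rfl⟩ := Finset.mem_image.1 hq
      rw [hr]
      exact hvan F hF'.1 j (hF'.2 j))
    rw [Finset.sum_image (fun a _ b _ h => hp h)] at hb
    simp only [hr] at hb
    have h1 : ∑ j, w j ^ 2 = ∑ j, w j * w j := Finset.sum_congr rfl fun j _ => by ring
    rw [h1] at hneg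
    nlinarith
  obtain ⟨H, hH⟩ := hdvd
  have hH0 : H ≠ 0 := fun h => hF0 (by rw [hH, h, mul_zero])
  have t1 := hF'.1.totalDegree hF0
  have t2 := hGe.totalDegree hG.ne_zero
  have t3 : (G * H).totalDegree = G.totalDegree + H.totalDegree :=
    MvPolynomial.totalDegree_mul_of_isDomain hG.ne_zero hH0
  rw [← hH, t1, t2] at t3
  have t4 : H.totalDegree = 0 := by omega
  rw [MvPolynomial.totalDegree_eq_zero_iff_eq_C] at t4
  refine ⟨H.coeff 0, Subtype.ext ?_⟩
  show H.coeff 0 • G = F
  rw [hH]
  conv_rhs => rw [t4]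
  rw [mul_comm, MvPolynomial.C_mul']

end Pool.Agent.TH167.Neg
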